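import Pool.Agent.Helper24.UX.Dx2

/-!
# RZ, block B7: from measure to ordinates

A set `B` of small measure contains `[g, g + s]` for few ordinates `g`: cells of length `s`, Cauchy, second moment of the
number of the zeros in a window.
-/

set_option autoImplicit false
open MeasureTheory Set Filter Topology
open Pool.Agent.Helper93.UG (zc sp)
open Pool.Agent.Helper56.UG (zc_mono zc_union)

namespace Pool.Agent.Helper10.RZ

/-- The cell. -/
def cel (T s : ℝ) (k : ℕ) : Set ℝ := Ico (T + k * s) (T + (k + 1) * s)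

lemma cel_meas (T s : ℝ) (k : ℕ) : MeasurableSet (cel T s k) := measurableSet_Ico

lemma cel_disj {T s : ℝ} (hs : 0 < s) {i j : ℕ} (h : i < j) : Disjoint (cel T s i) (cel T s j) := by
  rw [Set.disjoint_left]
  rintro x ⟨_, h1⟩ ⟨h2, _⟩
  have h3 : (i : ℝ) + 1 ≤ j := by exact_mod_cast h
  nlinarith

lemma cel_disj' {T s : ℝ} (hs : 0 < s) {i j : ℕ} (h : i ≠ j) : Disjoint (cel T s i) (cel T s j) := by
  rcases lt_or_gt_of_ne h with h | h
  · exact cel_disj hs h
  · exact (cel_disj hs h).symm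

/-- the count splits into the cells -/
lemma zc_cells {T s : ℝ} (hs : 0 < s) (I : Set ℝ) (N : ℕ) (hI : I ⊆ Ico T (T + N * s)) :
    zc I = ∑ k ∈ Finset.range N, zc (I ∩ cel T s k) := by
  induction N generalizing I with
  | zero =>
    have h0 : I = ∅ := by
      rw [Set.eq_empty_iff_forall_notMem]
      intro x hx
      have := hI hx
      simp at this
    subst h0
    simp only [Finset.range_zero, Finset.sum_empty]
    unfold zc
    simp
  | succ N ih =>
    rw [Finset.sum_range_succ]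
    have hNs : 0 ≤ (N : ℝ) * s := by positivity
    have h1 : I = (I ∩ Ico T (T + N * s)) ∪ (I ∩ cel T s N) := by
      ext x
      constructor
      · intro hx
        have h2 := hI hx
        push_cast at h2
        rcases lt_or_ge x (T + N * s) with h3 | h3
        · exact Or.inl ⟨hx, h2.1, h3⟩
        · exact Or.inr ⟨hx, h3, h2.2⟩
      · rintro (h | h)
        · exact h.1
        · exact h.1
    have hb : ∀ x ∈ I, x ∈ Icc T (T + ((N : ℝ) + 1) * s) := by
      intro x hx
      have h2 := hI hx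
      push_cast at h2
      exact ⟨h2.1, h2.2.le⟩
    have h4 : zc I = zc (I ∩ Ico T (T + N * s)) + zc (I ∩ cel T s N) := by
      conv_lhs => rw [h1]
      refine zc_union (a := T) (b := T + ((N : ℝ) + 1) * s) (fun x hx => hb x hx.1) (fun x hx => hb x hx.1) ?_
      rw [Set.disjoint_left]
      rintro x ⟨_, _, h5⟩ ⟨_, h6, _⟩
      exact absurd h5 (not_lt.2 h6)
    rw [h4, ih (I ∩ Ico T (T + N * s)) inter_subset_right]
    congr 1
    refine Finset.sum_congr rfl fun k hk => ?_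
    congr 1
    ext x
    constructor
    · rintro ⟨⟨h5, _⟩, h6⟩
      exact ⟨h5, h6⟩
    · rintro ⟨h5, h6⟩
      refine ⟨⟨h5, (hb x h5).1, ?_⟩, h6⟩
      have h7 : (k : ℝ) + 1 ≤ N := by exact_mod_cast Finset.mem_range.1 hk
      have h8 := h6.2
      nlinarith

/-- sum of the squares over the cells, from the mean square of the window `[t, t + 2 s)` -/
lemma sq_cells {T s : ℝ} (hs : 0 < s) (N : ℕ) (h1 : T / 2 ≤ T - s) (h2 : T + ((N : ℝ) - 1) * s ≤ 3 * T)
    (hint : IntegrableOn (fun t => (zc (Ico t (t + 2 * s)) : ℝ) ^ 2) (Icc (T / 2) (3 * T))) :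
    s * ∑ k ∈ Finset.range N, (zc (cel T s k) : ℝ) ^ 2 ≤ ∫ t in Icc (T / 2) (3 * T), (zc (Ico t (t + 2 * s)) : ℝ) ^ 2 := by
  have hsub : ∀ k ∈ Finset.range N, Ico (T + ((k : ℝ) - 1) * s) (T + (k : ℝ) * s) ⊆ Icc (T / 2) (3 * T) := by
    intro k hk x hx
    have h3 : (k : ℝ) + 1 ≤ N := by exact_mod_cast Finset.mem_range.1 hk
    have h4 : (0 : ℝ) ≤ k := Nat.cast_nonneg k
    constructor
    · nlinarith [hx.1]
    · nlinarith [hx.2]
  have hterm : ∀ k ∈ Finset.range N, s * (zc (cel T s k) : ℝ) ^ 2 ≤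
      ∫ t in Ico (T + ((k : ℝ) - 1) * s) (T + (k : ℝ) * s), (zc (Ico t (t + 2 * s)) : ℝ) ^ 2 := by
    intro k hk
    have hv : volume.real (Ico (T + ((k : ℝ) - 1) * s) (T + (k : ℝ) * s)) = s := by
      rw [Real.volume_real_Ico_of_le (by nlinarith)]
      ring
    have h3 : s * (zc (cel T s k) : ℝ) ^ 2 =
        ∫ t in Ico (T + ((k : ℝ) - 1) * s) (T + (k : ℝ) * s), (zc (cel T s k) : ℝ) ^ 2 := by
      rw [setIntegral_const, hv, smul_eq_mul]
    rw [h3]
    refine setIntegral_mono_on (by simp [integrableOn_const_iff, Real.volume_Ico]) (hint.mono_set (hsub k hk)) measurableSet_Ico fun t ht => ?_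
    have h5 : zc (cel T s k) ≤ zc (Ico t (t + 2 * s)) := by
      refine zc_mono (a := t) (b := t + 2 * s) (fun x hx => ⟨?_, ?_⟩) Ico_subset_Icc_self
      · exact ht.2.le.trans hx.1
      · have h6 := hx.2
        have h7 := ht.1
        nlinarith
    have h6 : (zc (cel T s k) : ℝ) ≤ zc (Ico t (t + 2 * s)) := by exact_mod_cast h5
    exact pow_le_pow_left₀ (Nat.cast_nonneg _) h6 2
  rw [Finset.mul_sum]
  refine (Finset.sum_le_sum hterm).trans ?_
  rw [← integral_biUnion_finset]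
  · refine setIntegral_mono_set hint (ae_of_all _ fun t => by positivity) ?_
    exact (iUnion₂_subset hsub).eventuallyLE
  · exact fun k _ => measurableSet_Ico
  · intro i _ j _ hij
    have h3 : ∀ i j : ℕ, i < j → Disjoint (Ico (T + ((i : ℝ) - 1) * s) (T + (i : ℝ) * s)) (Ico (T + ((j : ℝ) - 1) * s) (T + (j : ℝ) * s)) := by
      intro i j h
      rw [Set.disjoint_left]
      rintro x ⟨_, h1⟩ ⟨h2, _⟩
      have h3 : (i : ℝ) + 1 ≤ j := by exact_mod_cast h
      nlinarith
    rcases lt_or_gt_of_ne hij with h | h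
    · exact h3 i j h
    · exact (h3 j i h).symm
  · exact fun k hk => hint.mono_set (hsub k hk)

/-- the number of cells which meet the set of the `g` with `[g, g + s] ⊆ B` -/
lemma bad_cells {T s : ℝ} (hs : 0 < s) (B : Set ℝ) (K : Finset ℕ)
    (h : ∀ k ∈ K, ∃ g ∈ cel T s k, Icc g (g + s) ⊆ B) {m : ℝ} (hm : 0 ≤ m) (hB : volume B ≤ ENNReal.ofReal m) :
    (K.card : ℝ) * s ≤ 2 * m := by
  set B' := toMeasurable volume B with hB'
  have hM : MeasurableSet B' := measurableSet_toMeasurable _ _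
  have hBm : volume B' ≤ ENNReal.ofReal m := by rw [hB', measure_toMeasurable]; exact hB
  have hsum : ∀ j : ℕ, ∑ k ∈ K, volume (B' ∩ cel T s (k + j)) ≤ volume B' := by
    intro j
    rw [← measure_biUnion_finset]
    · exact measure_mono (iUnion₂_subset fun k _ => inter_subset_left)
    · intro a _ b _ hab
      exact (cel_disj' hs (fun h => hab (by omega))).mono inter_subset_right inter_subset_right
    · exact fun k _ => hM.inter (cel_meas _ _ _)
  have hk : ∀ k ∈ K, ENNReal.ofReal s ≤ volume (B' ∩ cel T s (k + 0)) + volume (B' ∩ cel T s (k + 1)) := by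
    intro k hk
    obtain ⟨g, hg, hgB⟩ := h k hk
    have h1 : volume (Icc g (g + s)) = ENNReal.ofReal s := by
      rw [Real.volume_Icc]
      congr 1
      ring
    rw [← h1, ← Real.volume_Ico.trans (Real.volume_Icc).symm]
    refine (measure_mono ?_).trans (measure_union_le _ _)
    intro x hx
    have hx' : x ∈ B' := subset_toMeasurable _ _ (hgB ⟨hx.1, hx.2.le⟩)
    have h2 := hg.1
    have h3 := hg.2
    rcases lt_or_ge x (T + ((k : ℝ) + 1) * s) with h4 | h4
    · exact Or.inl ⟨hx', by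
        rw [add_zero]
        exact ⟨h2.trans hx.1, h4⟩⟩
    · refine Or.inr ⟨hx', ?_, ?_⟩
      · push_cast
        exact h4
      · push_cast
        nlinarith [hx.2]
  have h2 : (K.card : ENNReal) * ENNReal.ofReal s ≤ 2 * ENNReal.ofReal m := by
    calc (K.card : ENNReal) * ENNReal.ofReal s = ∑ k ∈ K, ENNReal.ofReal s := by
          rw [Finset.sum_const, nsmul_eq_mul]
      _ ≤ ∑ k ∈ K, (volume (B' ∩ cel T s (k + 0)) + volume (B' ∩ cel T s (k + 1))) := Finset.sum_le_sum hk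
      _ = ∑ k ∈ K, volume (B' ∩ cel T s (k + 0)) + ∑ k ∈ K, volume (B' ∩ cel T s (k + 1)) := Finset.sum_add_distrib
      _ ≤ ENNReal.ofReal m + ENNReal.ofReal m := add_le_add ((hsum 0).trans hBm) ((hsum 1).trans hBm)
      _ = 2 * ENNReal.ofReal m := (two_mul _).symm
  have h3 : ENNReal.ofReal ((K.card : ℝ) * s) ≤ ENNReal.ofReal (2 * m) := by
    rw [ENNReal.ofReal_mul (Nat.cast_nonneg _), ENNReal.ofReal_mul (by norm_num), ENNReal.ofReal_natCast]
    simpa using h2
  exact (ENNReal.ofReal_le_ofReal_iff (by positivity)).1 h3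

/-- deterministic form -/
lemma palm_det {T s : ℝ} (hs : 0 < s) (N : ℕ) (h1 : T / 2 ≤ T - s) (h2 : T + ((N : ℝ) - 1) * s ≤ 3 * T) (h3 : 2 * T < T + N * s)
    (hint : IntegrableOn (fun t => (zc (Ico t (t + 2 * s)) : ℝ) ^ 2) (Icc (T / 2) (3 * T))) {S : ℝ}
    (hS : ∫ t in Icc (T / 2) (3 * T), (zc (Ico t (t + 2 * s)) : ℝ) ^ 2 ≤ S) (B : Set ℝ) {m : ℝ} (hm : 0 ≤ m)
    (hB : volume B ≤ ENNReal.ofReal m) :
    (zc {g : ℝ | T ≤ g ∧ g ≤ 2 * T ∧ Icc g (g + s) ⊆ B} : ℝ) ≤ √(2 * m) * √S / s := by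
  classical
  set G : Set ℝ := {g : ℝ | T ≤ g ∧ g ≤ 2 * T ∧ Icc g (g + s) ⊆ B} with hG
  have hGs : G ⊆ Ico T (T + N * s) := fun g hg => ⟨hg.1, hg.2.1.trans_lt h3⟩
  rw [zc_cells hs G N hGs, Nat.cast_sum]
  set K : Finset ℕ := (Finset.range N).filter fun k => ∃ g ∈ cel T s k, Icc g (g + s) ⊆ B with hK
  have e1 : ∀ k ∈ Finset.range N, (zc (G ∩ cel T s k) : ℝ) ≤ if k ∈ K then (zc (cel T s k) : ℝ) else 0 := by
    intro k hk
    split_ifs with hkK
    · have : zc (G ∩ cel T s k) ≤ zc (cel T s k) :=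
        zc_mono (a := T + k * s) (b := T + (k + 1) * s) inter_subset_right Ico_subset_Icc_self
      exact_mod_cast this
    · have h0 : G ∩ cel T s k = ∅ := by
        rw [Set.eq_empty_iff_forall_notMem]
        rintro g ⟨hg, hgc⟩
        exact hkK (Finset.mem_filter.2 ⟨hk, g, hgc, hg.2.2⟩)
      rw [h0]
      unfold zc
      simp
  refine (Finset.sum_le_sum e1).trans ?_
  have e2 : ∑ k ∈ Finset.range N, (if k ∈ K then (zc (cel T s k) : ℝ) else 0) = ∑ k ∈ K, (zc (cel T s k) : ℝ) := by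
    rw [← Finset.sum_filter]
    congr 1
    ext k
    rw [Finset.mem_filter]
    exact ⟨fun h => h.2, fun h => ⟨(Finset.mem_filter.1 h).1, h⟩⟩
  rw [e2]
  have hsq := sq_cells hs N h1 h2 hint
  have hbad := bad_cells hs B K (fun k hk => (Finset.mem_filter.1 hk).2) hm hB
  have h5 : (∑ k ∈ K, (zc (cel T s k) : ℝ)) ^ 2 ≤ K.card * ∑ k ∈ K, (zc (cel T s k) : ℝ) ^ 2 := sq_sum_le_card_mul_sum_sq
  have h6 : ∑ k ∈ K, (zc (cel T s k) : ℝ) ^ 2 ≤ ∑ k ∈ Finset.range N, (zc (cel T s k) : ℝ) ^ 2 :=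
    Finset.sum_le_sum_of_subset_of_nonneg (Finset.filter_subset _ _) fun _ _ _ => by positivity
  have h7 : (∑ k ∈ K, (zc (cel T s k) : ℝ)) ^ 2 * s ^ 2 ≤ 2 * m * S := by
    calc (∑ k ∈ K, (zc (cel T s k) : ℝ)) ^ 2 * s ^ 2 ≤ (K.card * ∑ k ∈ Finset.range N, (zc (cel T s k) : ℝ) ^ 2) * s ^ 2 := by
          refine mul_le_mul_of_nonneg_right (h5.trans ?_) (by positivity)
          exact mul_le_mul_of_nonneg_left h6 (by positivity)
      _ = (K.card * s) * (s * ∑ k ∈ Finset.range N, (zc (cel T s k) : ℝ) ^ 2) := by ring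
      _ ≤ 2 * m * S := by
          refine mul_le_mul hbad (hsq.trans hS) ?_ (by positivity)
          exact mul_nonneg hs.le (Finset.sum_nonneg fun _ _ => by positivity)
  rw [le_div_iff₀ hs, ← Real.sqrt_mul (by positivity)]
  refine Real.le_sqrt_of_sq_le ?_
  rw [mul_pow]
  exact h7

/-- **B7**, from the second moment -/
theorem palm_of (tx1 : Pool.Agent.Helper93.UX.TX1) : ∃ C T₀ : ℝ, 0 < C ∧ ∀ T : ℝ, T₀ ≤ T → ∀ (B : Set ℝ) (v : ℝ), 0 ≤ v →
    volume B ≤ ENNReal.ofReal (v * T) →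
    (zc {g : ℝ | T ≤ g ∧ g ≤ 2 * T ∧ Icc g (g + sp T) ⊆ B} : ℝ) ≤ C * √v * (T * Real.log T) := by
  obtain ⟨C, d, T₀, hC, hd, h⟩ := tx1 1
  have hlim : Tendsto (fun T : ℝ => Real.log T / Real.log (Real.log T)) atTop atTop := by
    have h1 : Tendsto (fun x : ℝ => x / Real.log x) atTop atTop := by
      have h2 : Tendsto (fun x : ℝ => Real.log x / x) atTop (𝓝 0) := by
        simpa using Real.tendsto_pow_log_div_mul_add_atTop 1 0 1 one_ne_zero
      have h3 : Tendsto (fun x : ℝ => Real.log x / x) atTop (𝓝[>] 0) := by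
        refine tendsto_nhdsWithin_iff.2 ⟨h2, ?_⟩
        filter_upwards [eventually_gt_atTop 1] with x hx
        exact div_pos (Real.log_pos hx) (by linarith)
      have h4 := h3.inv_tendsto_nhdsGT_zero
      refine h4.congr fun x => ?_
      rw [Pi.inv_apply, inv_div]
    exact h1.comp Real.tendsto_log_atTop
  obtain ⟨T₁, hT₁⟩ := (eventually_atTop.1 (hlim.eventually_ge_atTop (2 / d)))
  refine ⟨√(2 * (2 * C * Real.log 4 + 20)), max (max T₀ T₁) (Real.exp 8), ?_, ?_⟩
  · have : 0 < Real.log 4 := Real.log_pos (by norm_num)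
    positivity
  intro T hT B v hv hB
  have hT0 : T₀ ≤ T := ((le_max_left _ _).trans (le_max_left _ _)).trans hT
  have hT1 : T₁ ≤ T := ((le_max_right _ _).trans (le_max_left _ _)).trans hT
  have hT2 : Real.exp 8 ≤ T := (le_max_right _ _).trans hT
  have hTp : 8 ≤ T := by
    have := Real.add_one_le_exp (8 : ℝ)
    linarith
  have hlog : 8 ≤ Real.log T := by
    rw [Real.le_log_iff_exp_le (by linarith)]
    exact hT2
  have hs : 0 < sp T := by
    unfold sp
    have := Real.pi_pos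
    positivity
  have hs1 : sp T ≤ 1 := by
    unfold sp
    rw [div_le_one (by linarith)]
    have := Real.pi_lt_four
    linarith
  have hc : (2 : ℝ) ≤ d * (Real.log T / Real.log (Real.log T)) := by
    have h1 := hT₁ T hT1
    rw [div_le_iff₀ hd] at h1
    linarith
  obtain ⟨hi, hI⟩ := h T hT0 2 (by norm_num) hc
  have hlog4 : 0 < Real.log 4 := Real.log_pos (by norm_num)
  have hmeas := Pool.Agent.Helper24.UX.zc_meas' (2 * sp T)
  have hle : ∀ t : ℝ, (zc (Ico t (t + 2 * sp T)) : ℝ) ^ 2 ≤ 2 * |(zc (Ico t (t + 2 * sp T)) : ℝ) - 2| ^ (2 * 1) + 8 := by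
    intro t
    rw [mul_one, sq_abs]
    nlinarith [sq_nonneg ((zc (Ico t (t + 2 * sp T)) : ℝ) - 4)]
  have hg : IntegrableOn (fun t => 2 * |(zc (Ico t (t + 2 * sp T)) : ℝ) - 2| ^ (2 * 1) + 8) (Icc (T / 2) (3 * T)) := by
    refine (hi.const_mul 2).add ?_
    exact integrableOn_const (by rw [Real.volume_Icc]; exact ENNReal.ofReal_ne_top)
  have hint : IntegrableOn (fun t => (zc (Ico t (t + 2 * sp T)) : ℝ) ^ 2) (Icc (T / 2) (3 * T)) := by
    refine hg.mono' (hmeas.pow_const 2).aestronglyMeasurable (ae_of_all _ fun t => ?_)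
    rw [Real.norm_eq_abs, abs_of_nonneg (by positivity)]
    exact hle t
  have hS : ∫ t in Icc (T / 2) (3 * T), (zc (Ico t (t + 2 * sp T)) : ℝ) ^ 2 ≤ (2 * C * Real.log 4 + 20) * T := by
    calc ∫ t in Icc (T / 2) (3 * T), (zc (Ico t (t + 2 * sp T)) : ℝ) ^ 2
        ≤ ∫ t in Icc (T / 2) (3 * T), (2 * |(zc (Ico t (t + 2 * sp T)) : ℝ) - 2| ^ (2 * 1) + 8) :=
          setIntegral_mono hint hg hle
      _ = 2 * (∫ t in Icc (T / 2) (3 * T), |(zc (Ico t (t + 2 * sp T)) : ℝ) - 2| ^ (2 * 1)) + 8 * (3 * T - T / 2) := by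
          rw [integral_add (hi.const_mul 2) (integrableOn_const (by rw [Real.volume_Icc]; exact ENNReal.ofReal_ne_top)),
            integral_const_mul, setIntegral_const, Real.volume_real_Icc_of_le (by linarith), smul_eq_mul]
          ring
      _ ≤ 2 * (C * Real.log (2 + 2) ^ 1 * T) + 8 * (3 * T - T / 2) := by linarith
      _ = (2 * C * Real.log 4 + 20) * T := by
          norm_num
          ring
  set N : ℕ := ⌊T / sp T⌋₊ + 1 with hN
  have hN1 : T / sp T < N := by
    rw [hN]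
    push_cast
    exact Nat.lt_floor_add_one _
  have hN2 : (N : ℝ) - 1 ≤ T / sp T := by
    rw [hN]
    push_cast
    have := Nat.floor_le (div_nonneg (by linarith : (0:ℝ) ≤ T) hs.le)
    linarith
  have hN1' : T < N * sp T := by rwa [div_lt_iff₀ hs] at hN1
  have hN2' : ((N : ℝ) - 1) * sp T ≤ T := by rwa [le_div_iff₀ hs] at hN2
  have hfin := palm_det hs N (by linarith) (by linarith) (by linarith) hint hS B (mul_nonneg hv (by linarith)) hB
  refine hfin.trans ?_
  have hD : 0 ≤ 2 * C * Real.log 4 + 20 := by positivity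
  generalize 2 * C * Real.log 4 + 20 = D at hD
  have hT' : 0 ≤ T := by linarith
  have e1 : √(2 * (v * T)) * √(D * T) = √(2 * D) * √v * T := by
    rw [← Real.sqrt_mul (by positivity), ← Real.sqrt_mul (by positivity)]
    rw [show 2 * (v * T) * (D * T) = 2 * D * v * T ^ 2 by ring, Real.sqrt_mul (by positivity), Real.sqrt_sq hT']
  rw [e1]
  have e2 : 1 / sp T ≤ Real.log T := by
    unfold sp
    rw [one_div_div, div_le_iff₀ (by have := Real.pi_pos; positivity)]
    have := Real.pi_gt_three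
    nlinarith
  calc √(2 * D) * √v * T / sp T = √(2 * D) * √v * T * (1 / sp T) := by ring
    _ ≤ √(2 * D) * √v * T * Real.log T := mul_le_mul_of_nonneg_left e2 (by positivity)
    _ = √(2 * D) * √v * (T * Real.log T) := by ring

end Pool.Agent.Helper10.RZ
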