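import Pool.Agent.Helper10.RZ.Palm

/-!
# RZ / NR, block P (`transfer`): from the measure to the ordinates, with `η s`-neighbourhoods
-/

set_option autoImplicit false
open MeasureTheory Set Filter Topology
open Pool.Agent.Helper93.UG (zc sp)
open Pool.Agent.Helper56.UG (zc_mono zc_union)

namespace Pool.Agent.Helper10.RZ

/-- the number of cells which meet the set of the `g` with `[g, g + r) ⊆ B` -/
lemma bad_cells2 {T s r : ℝ} (hs : 0 < s) (hrs : r ≤ s) (B : Set ℝ) (K : Finset ℕ)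
    (h : ∀ k ∈ K, ∃ g ∈ cel T s k, Ico g (g + r) ⊆ B) {m : ℝ} (hm : 0 ≤ m) (hB : volume B ≤ ENNReal.ofReal m) :
    (K.card : ℝ) * r ≤ 2 * m := by
  set B' := toMeasurable volume B with hB'
  have hM : MeasurableSet B' := measurableSet_toMeasurable _ _
  have hBm : volume B' ≤ ENNReal.ofReal m := by rw [hB', measure_toMeasurable]; exact hB
  have hsum : ∀ j : ℕ, ∑ k ∈ K, volume (B' ∩ cel T s (k + j)) ≤ volume B' := by
    intro j
    rw [← measure_biUnion_finset]
    · exact measure_mono (iUnion₂_subset fun k _ => inter_subset_left)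
    · intro a _ b _ hab
      exact (cel_disj' hs (fun h => hab (by omega))).mono inter_subset_right inter_subset_right
    · exact fun k _ => hM.inter (cel_meas _ _ _)
  have hk : ∀ k ∈ K, ENNReal.ofReal r ≤ volume (B' ∩ cel T s (k + 0)) + volume (B' ∩ cel T s (k + 1)) := by
    intro k hk
    obtain ⟨g, hg, hgB⟩ := h k hk
    have h1 : volume (Ico g (g + r)) = ENNReal.ofReal r := by
      rw [Real.volume_Ico]
      congr 1
      ring
    rw [← h1]
    refine (measure_mono ?_).trans (measure_union_le _ _)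
    intro x hx
    have hx' : x ∈ B' := subset_toMeasurable _ _ (hgB hx)
    have h2 := hg.1
    have h3 := hg.2
    rcases lt_or_ge x (T + ((k : ℝ) + 1) * s) with h4 | h4
    · exact Or.inl ⟨hx', by
        rw [add_zero]
        exact ⟨h2.trans hx.1, h4⟩⟩
    · refine Or.inr ⟨hx', ?_, ?_⟩
      · push_cast
        exact h4
      · push_cast
        nlinarith [hx.2]
  have h2 : (K.card : ENNReal) * ENNReal.ofReal r ≤ 2 * ENNReal.ofReal m := by
    calc (K.card : ENNReal) * ENNReal.ofReal r = ∑ k ∈ K, ENNReal.ofReal r := by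
          rw [Finset.sum_const, nsmul_eq_mul]
      _ ≤ ∑ k ∈ K, (volume (B' ∩ cel T s (k + 0)) + volume (B' ∩ cel T s (k + 1))) := Finset.sum_le_sum hk
      _ = ∑ k ∈ K, volume (B' ∩ cel T s (k + 0)) + ∑ k ∈ K, volume (B' ∩ cel T s (k + 1)) := Finset.sum_add_distrib
      _ ≤ ENNReal.ofReal m + ENNReal.ofReal m := add_le_add ((hsum 0).trans hBm) ((hsum 1).trans hBm)
      _ = 2 * ENNReal.ofReal m := (two_mul _).symm
  have h3 : ENNReal.ofReal ((K.card : ℝ) * r) ≤ ENNReal.ofReal (2 * m) := by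
    rw [ENNReal.ofReal_mul (Nat.cast_nonneg _), ENNReal.ofReal_mul (by norm_num), ENNReal.ofReal_natCast]
    simpa using h2
  exact (ENNReal.ofReal_le_ofReal_iff (by positivity)).1 h3

/-- deterministic form -/
lemma transfer_det {T s r : ℝ} (hs : 0 < s) (hr : 0 < r) (hrs : r ≤ s) (N : ℕ) (h1 : T / 2 ≤ T - s)
    (h2 : T + ((N : ℝ) - 1) * s ≤ 3 * T) (h3 : 2 * T < T + N * s)
    (hint : IntegrableOn (fun t => (zc (Ico t (t + 2 * s)) : ℝ) ^ 2) (Icc (T / 2) (3 * T))) {S : ℝ}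
    (hS : ∫ t in Icc (T / 2) (3 * T), (zc (Ico t (t + 2 * s)) : ℝ) ^ 2 ≤ S) (G B : Set ℝ) (hG : G ⊆ Icc T (2 * T))
    (hGB : ∀ g ∈ G, Ico g (g + r) ⊆ B) {m : ℝ} (hm : 0 ≤ m) (hB : volume B ≤ ENNReal.ofReal m) :
    (zc G : ℝ) ^ 2 * (r * s) ≤ 2 * m * S := by
  classical
  have hGs : G ⊆ Ico T (T + N * s) := fun g hg => ⟨(hG hg).1, (hG hg).2.trans_lt h3⟩
  rw [zc_cells hs G N hGs, Nat.cast_sum]
  set K : Finset ℕ := (Finset.range N).filter fun k => ∃ g ∈ cel T s k, Ico g (g + r) ⊆ B with hK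
  have e1 : ∀ k ∈ Finset.range N, (zc (G ∩ cel T s k) : ℝ) ≤ if k ∈ K then (zc (cel T s k) : ℝ) else 0 := by
    intro k hk
    split_ifs with hkK
    · have : zc (G ∩ cel T s k) ≤ zc (cel T s k) :=
        zc_mono (a := T + k * s) (b := T + (k + 1) * s) inter_subset_right Ico_subset_Icc_self
      exact_mod_cast this
    · have h0 : G ∩ cel T s k = ∅ := by
        rw [Set.eq_empty_iff_forall_notMem]
        rintro g ⟨hg, hgc⟩
        exact hkK (Finset.mem_filter.2 ⟨hk, g, hgc, hGB g hg⟩)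
      rw [h0]
      unfold zc
      simp
  have e2 : ∑ k ∈ Finset.range N, (if k ∈ K then (zc (cel T s k) : ℝ) else 0) = ∑ k ∈ K, (zc (cel T s k) : ℝ) := by
    rw [← Finset.sum_filter]
    congr 1
    ext k
    rw [Finset.mem_filter]
    exact ⟨fun h => h.2, fun h => ⟨(Finset.mem_filter.1 h).1, h⟩⟩
  have e3 := (Finset.sum_le_sum e1).trans_eq e2
  have e4 : 0 ≤ ∑ k ∈ Finset.range N, (zc (G ∩ cel T s k) : ℝ) := Finset.sum_nonneg fun _ _ => Nat.cast_nonneg _
  have hsq := sq_cells hs N h1 h2 hint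
  have hbad := bad_cells2 hs hrs B K (fun k hk => (Finset.mem_filter.1 hk).2) hm hB
  have h5 : (∑ k ∈ K, (zc (cel T s k) : ℝ)) ^ 2 ≤ K.card * ∑ k ∈ K, (zc (cel T s k) : ℝ) ^ 2 := sq_sum_le_card_mul_sum_sq
  have h6 : ∑ k ∈ K, (zc (cel T s k) : ℝ) ^ 2 ≤ ∑ k ∈ Finset.range N, (zc (cel T s k) : ℝ) ^ 2 :=
    Finset.sum_le_sum_of_subset_of_nonneg (Finset.filter_subset _ _) fun _ _ _ => by positivity
  calc (∑ k ∈ Finset.range N, (zc (G ∩ cel T s k) : ℝ)) ^ 2 * (r * s)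
      ≤ (K.card * ∑ k ∈ Finset.range N, (zc (cel T s k) : ℝ) ^ 2) * (r * s) := by
        refine mul_le_mul_of_nonneg_right ?_ (by positivity)
        exact (pow_le_pow_left₀ e4 e3 2).trans (h5.trans (mul_le_mul_of_nonneg_left h6 (by positivity)))
    _ = (K.card * r) * (s * ∑ k ∈ Finset.range N, (zc (cel T s k) : ℝ) ^ 2) := by ring
    _ ≤ 2 * m * S := by
        refine mul_le_mul hbad (hsq.trans hS) ?_ (by positivity)
        exact mul_nonneg hs.le (Finset.sum_nonneg fun _ _ => by positivity)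

/-- the second moment of the number of the zeros in the window of two mean spacings -/
lemma sq_mom (tx1 : Pool.Agent.Helper93.UX.TX1) : ∃ D T₀ : ℝ, 1 ≤ D ∧ ∀ T : ℝ, T₀ ≤ T →
    IntegrableOn (fun t => (zc (Ico t (t + 2 * sp T)) : ℝ) ^ 2) (Icc (T / 2) (3 * T)) ∧
    ∫ t in Icc (T / 2) (3 * T), (zc (Ico t (t + 2 * sp T)) : ℝ) ^ 2 ≤ D * T := by
  obtain ⟨C, d, T₀, hC, hd, h⟩ := tx1 1
  have hlim : Tendsto (fun T : ℝ => Real.log T / Real.log (Real.log T)) atTop atTop := by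
    have h1 : Tendsto (fun x : ℝ => x / Real.log x) atTop atTop := by
      have h2 : Tendsto (fun x : ℝ => Real.log x / x) atTop (𝓝 0) := by
        simpa using Real.tendsto_pow_log_div_mul_add_atTop 1 0 1 one_ne_zero
      have h3 : Tendsto (fun x : ℝ => Real.log x / x) atTop (𝓝[>] 0) := by
        refine tendsto_nhdsWithin_iff.2 ⟨h2, ?_⟩
        filter_upwards [eventually_gt_atTop 1] with x hx
        exact div_pos (Real.log_pos hx) (by linarith)
      have h4 := h3.inv_tendsto_nhdsGT_zero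
      refine h4.congr fun x => ?_
      rw [Pi.inv_apply, inv_div]
    exact h1.comp Real.tendsto_log_atTop
  obtain ⟨T₁, hT₁⟩ := (eventually_atTop.1 (hlim.eventually_ge_atTop (2 / d)))
  have hlog4 : 0 < Real.log 4 := Real.log_pos (by norm_num)
  refine ⟨2 * C * Real.log 4 + 20, max (max T₀ T₁) 1, by nlinarith [mul_pos hC hlog4], ?_⟩
  intro T hT
  have hT0 : T₀ ≤ T := ((le_max_left _ _).trans (le_max_left _ _)).trans hT
  have hT1 : T₁ ≤ T := ((le_max_right _ _).trans (le_max_left _ _)).trans hT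
  have hTp : 1 ≤ T := (le_max_right _ _).trans hT
  have hc : (2 : ℝ) ≤ d * (Real.log T / Real.log (Real.log T)) := by
    have h1 := hT₁ T hT1
    rw [div_le_iff₀ hd] at h1
    linarith
  obtain ⟨hi, hI⟩ := h T hT0 2 (by norm_num) hc
  have hmeas := Pool.Agent.Helper24.UX.zc_meas' (2 * sp T)
  have hle : ∀ t : ℝ, (zc (Ico t (t + 2 * sp T)) : ℝ) ^ 2 ≤ 2 * |(zc (Ico t (t + 2 * sp T)) : ℝ) - 2| ^ (2 * 1) + 8 := by
    intro t
    rw [mul_one, sq_abs]
    nlinarith [sq_nonneg ((zc (Ico t (t + 2 * sp T)) : ℝ) - 4)]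
  have hg : IntegrableOn (fun t => 2 * |(zc (Ico t (t + 2 * sp T)) : ℝ) - 2| ^ (2 * 1) + 8) (Icc (T / 2) (3 * T)) := by
    refine (hi.const_mul 2).add ?_
    exact integrableOn_const (by rw [Real.volume_Icc]; exact ENNReal.ofReal_ne_top)
  have hint : IntegrableOn (fun t => (zc (Ico t (t + 2 * sp T)) : ℝ) ^ 2) (Icc (T / 2) (3 * T)) := by
    refine hg.mono' (hmeas.pow_const 2).aestronglyMeasurable (ae_of_all _ fun t => ?_)
    rw [Real.norm_eq_abs, abs_of_nonneg (by positivity)]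
    exact hle t
  refine ⟨hint, ?_⟩
  calc ∫ t in Icc (T / 2) (3 * T), (zc (Ico t (t + 2 * sp T)) : ℝ) ^ 2
      ≤ ∫ t in Icc (T / 2) (3 * T), (2 * |(zc (Ico t (t + 2 * sp T)) : ℝ) - 2| ^ (2 * 1) + 8) :=
        setIntegral_mono hint hg hle
    _ = 2 * (∫ t in Icc (T / 2) (3 * T), |(zc (Ico t (t + 2 * sp T)) : ℝ) - 2| ^ (2 * 1)) + 8 * (3 * T - T / 2) := by
        rw [integral_add (hi.const_mul 2) (integrableOn_const (by rw [Real.volume_Icc]; exact ENNReal.ofReal_ne_top)),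
          integral_const_mul, setIntegral_const, Real.volume_real_Icc_of_le (by linarith), smul_eq_mul]
        ring
    _ ≤ 2 * (C * Real.log (2 + 2) ^ 1 * T) + 8 * (3 * T - T / 2) := by linarith
    _ = (2 * C * Real.log 4 + 20) * T := by
        norm_num
        ring

/-- **P** (`transfer`), from TX1 -/
theorem transfer_of (tx1 : Pool.Agent.Helper93.UX.TX1) : ∃ C T₀ : ℝ, 1 ≤ C ∧ ∀ T η δ : ℝ, T₀ ≤ T → 0 < η → η ≤ 1 → 0 < δ → δ ≤ 1 →
    ∀ Γ E : Set ℝ, Γ ⊆ Icc T (2 * T) →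
    (∀ γ ∈ Γ, ∀ t, |t - γ| < η * sp T → t ∈ E) → E ⊆ Icc (T / 2) (3 * T) → volume E ≤ ENNReal.ofReal (δ * T) →
    (zc Γ : ℝ) ≤ C / η * √δ * (T * Real.log T) := by
  obtain ⟨D, T₁, hD, h⟩ := sq_mom tx1
  refine ⟨√(2 * D), max T₁ (Real.exp 8), ?_, ?_⟩
  · rw [Real.one_le_sqrt]
    linarith
  intro T η δ hT hη hη1 hδ hδ1 Γ E hΓ hΓE _ hE
  have hT1 : T₁ ≤ T := (le_max_left _ _).trans hT
  have hT2 : Real.exp 8 ≤ T := (le_max_right _ _).trans hT
  have hTp : 8 ≤ T := by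
    have := Real.add_one_le_exp (8 : ℝ)
    linarith
  have hlog : 8 ≤ Real.log T := by
    rw [Real.le_log_iff_exp_le (by linarith)]
    exact hT2
  have hs : 0 < sp T := by
    unfold sp
    have := Real.pi_pos
    positivity
  have hs1 : sp T ≤ 1 := by
    unfold sp
    rw [div_le_one (by linarith)]
    have := Real.pi_lt_four
    linarith
  obtain ⟨hint, hS⟩ := h T hT1
  set N : ℕ := ⌊T / sp T⌋₊ + 1 with hN
  have hN1 : T / sp T < N := by
    rw [hN]
    push_cast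
    exact Nat.lt_floor_add_one _
  have hN2 : (N : ℝ) - 1 ≤ T / sp T := by
    rw [hN]
    push_cast
    have := Nat.floor_le (div_nonneg (by linarith : (0:ℝ) ≤ T) hs.le)
    linarith
  have hN1' : T < N * sp T := by rwa [div_lt_iff₀ hs] at hN1
  have hN2' : ((N : ℝ) - 1) * sp T ≤ T := by rwa [le_div_iff₀ hs] at hN2
  have hr : 0 < η * sp T := by positivity
  have hrs : η * sp T ≤ sp T := by nlinarith
  have hfin := transfer_det hs hr hrs N (by linarith) (by linarith) (by linarith) hint hS Γ E hΓ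
    (fun g hg x hx => hΓE g hg x (by rw [abs_lt]; constructor <;> linarith [hx.1, hx.2]))
    (m := δ * T) (by positivity) hE
  have hT' : 0 ≤ T := by linarith
  have hD0 : 0 ≤ D := by linarith
  -- `(zc Γ)² η s² ≤ 2 δ T D T`
  have e0 : (zc Γ : ℝ) ^ 2 * (η * sp T) ^ 2 ≤ 2 * D * δ * T ^ 2 := by
    calc (zc Γ : ℝ) ^ 2 * (η * sp T) ^ 2 = (zc Γ : ℝ) ^ 2 * (η * sp T * sp T) * η := by ring
      _ ≤ (zc Γ : ℝ) ^ 2 * (η * sp T * sp T) * 1 := mul_le_mul_of_nonneg_left hη1 (by positivity)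
      _ ≤ 2 * (δ * T) * (D * T) := by linarith
      _ = 2 * D * δ * T ^ 2 := by ring
  have e1 : (zc Γ : ℝ) * (η * sp T) ≤ √(2 * D) * √δ * T := by
    rw [← Real.sqrt_mul (by positivity)]
    have e2 : √(2 * D * δ) * T = √(2 * D * δ * T ^ 2) := by
      rw [Real.sqrt_mul (by positivity : (0:ℝ) ≤ 2 * D * δ) (T ^ 2), Real.sqrt_sq hT']
    rw [e2]
    refine Real.le_sqrt_of_sq_le ?_
    rw [mul_pow]
    exact e0
  have e2 : (zc Γ : ℝ) ≤ √(2 * D) * √δ * T / (η * sp T) := by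
    rw [le_div_iff₀ hr]
    exact e1
  have e3 : 1 / sp T ≤ Real.log T := by
    unfold sp
    rw [one_div_div, div_le_iff₀ (by have := Real.pi_pos; positivity)]
    have := Real.pi_gt_three
    nlinarith
  calc (zc Γ : ℝ) ≤ √(2 * D) * √δ * T / (η * sp T) := e2
    _ = √(2 * D) / η * √δ * T * (1 / sp T) := by
        field_simp
    _ ≤ √(2 * D) / η * √δ * T * Real.log T := mul_le_mul_of_nonneg_left e3 (by positivity)
    _ = √(2 * D) / η * √δ * (T * Real.log T) := by ring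

end Pool.Agent.Helper10.RZ
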